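import Mathlib

/-!
# The Galvin property fails for all fine normal ultrafilters on `P_κ(κ⁺)` if `2 ^ κ = κ⁺`

Let `β` enumerate all bounded subsets of `κ⁺` in type `κ⁺`. For `Z ⊆ κ⁺` let `A Z` be the set of all
`x` such that for every `a ∈ x` some `b ∈ x` satisfies `β b = Z ∩ a`. Every fine normal ultrafilter
contains all the sets `A Z`, while no `x` containing a suitable point `a` belongs to `κ` many of
them, since the traces `Z ∩ a` have `κ` many different indices in `x`.
-/

set_option autoImplicit false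

open Cardinal Set

namespace Pool.Agent.Results.MP_a3089e_lc.GalvinFails

/-- Let `κ` be an uncountable cardinal with `2 ^ κ = κ⁺`, let `X` be a set of cardinality `κ⁺`
and `U` a `κ`-complete fine normal ultrafilter on `P_κ(X)`. Then there are `2 ^ κ⁺` many distinct
members of `U` such that the intersection of any `κ` many of them is not in `U`; moreover it is
disjoint from `{x : a ∈ x}` for some `a`. -/
theorem result (κ : Cardinal.{0}) (X : Type) (hκ : ℵ₀ < κ) (hX : #X = Order.succ κ)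
    (h2 : (2 : Cardinal.{0}) ^ κ = Order.succ κ)
    (U : Ultrafilter {x : Set X // #x < κ})
    (_complete : ∀ S : Set (Set {x : Set X // #x < κ}), #S < κ → (∀ s ∈ S, s ∈ U) → ⋂₀ S ∈ U)
    (fine : ∀ a : X, {x : {x : Set X // #x < κ} | a ∈ x.1} ∈ U)
    (normal : ∀ f : {x : Set X // #x < κ} → X,
      {x : {x : Set X // #x < κ} | f x ∈ x.1} ∈ U →
        ∃ a : X, {x : {x : Set X // #x < κ} | f x = a} ∈ U) :
    ∃ S : Set (Set {x : Set X // #x < κ}),
      (∀ s ∈ S, s ∈ U) ∧ #S = (2 : Cardinal.{0}) ^ Order.succ κ ∧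
      ∀ T ⊆ S, #T = κ →
        ⋂₀ T ∉ U ∧ ∃ a : X, ⋂₀ T ∩ {x : {x : Set X // #x < κ} | a ∈ x.1} = ∅ := by
  classical
  have hκ0 : ℵ₀ ≤ κ := hκ.le
  have hreg : (Order.succ κ).IsRegular := isRegular_succ hκ0
  -- a well-ordering of `X` of type `κ⁺`
  have hK : #(Order.succ κ).ord.ToType = Order.succ κ := mk_ord_toType _
  obtain ⟨e⟩ : Nonempty (X ≃ (Order.succ κ).ord.ToType) := Cardinal.eq.1 (hX.trans hK.symm)
  let I : X → Set X := fun a => {y | e y < e a}
  have hI : ∀ a, #(I a) ≤ κ := by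
    intro a
    have h1 : #(Iio (e a)) < Order.succ κ := by
      have := mk_Iio_lt (e a) (by simp)
      rwa [hK] at this
    refine le_trans ?_ (Order.lt_succ_iff.1 h1)
    exact mk_le_of_injective (f := fun y : I a => (⟨e y.1, y.2⟩ : Iio (e a)))
      (fun y z h => Subtype.ext (e.injective (congrArg Subtype.val h)))
  -- the bounded sets
  let B : Set (Set X) := {b | ∃ a, b ⊆ I a}
  have hB : #B ≤ #X := by
    have h1 : B ⊆ ⋃ a, 𝒫 (I a) := by
      rintro b ⟨a, ha⟩
      exact mem_iUnion.2 ⟨a, ha⟩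
    have h3 : ∀ a, #(𝒫 (I a) : Set (Set X)) ≤ Order.succ κ := by
      intro a
      rw [mk_powerset, ← h2]
      exact power_le_power_left two_ne_zero (hI a)
    calc #B ≤ #(⋃ a, 𝒫 (I a) : Set (Set X)) := mk_le_mk_of_subset h1
      _ ≤ Cardinal.sum fun a => #(𝒫 (I a) : Set (Set X)) := mk_iUnion_le_sum_mk
      _ ≤ Cardinal.sum fun _ : X => Order.succ κ := sum_le_sum _ _ h3
      _ = Order.succ κ * Order.succ κ := by rw [sum_const', hX]
      _ = Order.succ κ := mul_eq_self hreg.aleph0_le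
      _ = #X := hX.symm
  have hne : Nonempty X := by
    rw [← mk_ne_zero_iff, hX]
    exact Order.succ_ne_bot _
  have hBne : Nonempty B := ⟨⟨∅, hne.some, empty_subset _⟩⟩
  obtain ⟨g⟩ := hB
  let β : X → Set X := fun b => (Function.invFun g b : B).1
  have hβ : ∀ b ∈ B, ∃ c, β c = b := by
    intro b hb
    exact ⟨g ⟨b, hb⟩, congrArg Subtype.val (Function.leftInverse_invFun g.injective ⟨b, hb⟩)⟩
  let A : Set X → Set {x : Set X // #x < κ} :=
    fun Z => {x | ∀ a ∈ x.1, ∃ b ∈ x.1, β b = Z ∩ I a}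
  have hA : ∀ Z, A Z ∈ U := by
    intro Z
    by_contra hZ
    have hZ' : (A Z)ᶜ ∈ U := Ultrafilter.compl_mem_iff_notMem.2 hZ
    let f : {x : Set X // #x < κ} → X := fun x =>
      if h : ∃ a ∈ x.1, ∀ b ∈ x.1, β b ≠ Z ∩ I a then h.choose else hne.some
    have hf : ∀ x ∈ (A Z)ᶜ, f x ∈ x.1 ∧ ∀ b ∈ x.1, β b ≠ Z ∩ I (f x) := by
      intro x hx
      have h : ∃ a ∈ x.1, ∀ b ∈ x.1, β b ≠ Z ∩ I a := by
        have := hx
        simp only [A, mem_compl_iff, mem_ofPred_eq, not_forall, not_exists, not_and] at this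
        obtain ⟨a, ha, h⟩ := this
        exact ⟨a, ha, h⟩
      have hfx : f x = h.choose := dif_pos h
      rw [hfx]
      exact h.choose_spec
    obtain ⟨a, ha⟩ := normal f (Filter.mem_of_superset hZ' fun x hx => (hf x hx).1)
    obtain ⟨b, hb⟩ := hβ (Z ∩ I a) ⟨a, inter_subset_right⟩
    obtain ⟨x, ⟨hx1, hx2⟩, hx3⟩ := U.nonempty_of_mem
      (Filter.inter_mem (Filter.inter_mem hZ' ha) (fine b))
    have h5 := (hf x hx1).2 b hx3
    rw [show f x = a from hx2] at h5
    exact h5 hb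
  -- the main point
  have key : ∀ (T : Type) (Z : T → Set X), Function.Injective Z → #T = κ →
      ∃ a : X, ∀ x : {x : Set X // #x < κ}, a ∈ x.1 → ¬ ∀ t, x ∈ A (Z t) := by
    intro T Z hZ hT
    have hd : ∀ p : T × T, ∃ d : X, p.1 ≠ p.2 → ¬ (d ∈ Z p.1 ↔ d ∈ Z p.2) := by
      intro p
      by_cases hp : p.1 = p.2
      · exact ⟨hne.some, fun h => absurd hp h⟩
      · have h1 : Z p.1 ≠ Z p.2 := fun h => hp (hZ h)
        by_contra hcon
        push Not at hcon
        exact h1 (Set.ext fun d => (hcon d).2)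
    choose d hd using hd
    obtain ⟨a, ha⟩ : ∃ a : X, ∀ p, e (d p) < e a := by
      have hnm : NoMaxOrder (Order.succ κ).ord.ToType := Cardinal.noMaxOrder hreg.aleph0_le
      by_contra hcon
      push Not at hcon
      have hcof : IsCofinal (range fun p => e (d p)) := by
        intro y
        obtain ⟨p, hp⟩ := hcon (e.symm y)
        rw [e.apply_symm_apply] at hp
        exact ⟨e (d p), ⟨p, rfl⟩, hp⟩
      have h1 := Order.cof_le hcof
      rw [Ordinal.cof_toType, hreg.cof_ord] at h1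
      have h2 : #(range fun p => e (d p)) ≤ κ := by
        refine mk_range_le.trans ?_
        rw [mk_prod, hT, lift_id, mul_eq_self hκ0]
      exact absurd (h1.trans h2) (not_le.2 (Order.lt_succ κ))
    refine ⟨a, fun x hax hx => ?_⟩
    choose b hb1 hb2 using fun t => hx t a hax
    have hinj : Function.Injective fun t => (⟨b t, hb1 t⟩ : x.1) := by
      intro s t hst
      by_contra hne'
      have h1 : b s = b t := congrArg Subtype.val hst
      have h2 : Z s ∩ I a = Z t ∩ I a := by rw [← hb2 s, ← hb2 t, h1]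
      apply hd (s, t) hne'
      have h3 : d (s, t) ∈ I a := ha (s, t)
      constructor
      · intro h
        exact (h2 ▸ (⟨h, h3⟩ : d (s, t) ∈ Z s ∩ I a) : d (s, t) ∈ Z t ∩ I a).1
      · intro h
        exact (h2.symm ▸ (⟨h, h3⟩ : d (s, t) ∈ Z t ∩ I a) : d (s, t) ∈ Z s ∩ I a).1
    have h1 := mk_le_of_injective hinj
    rw [hT] at h1
    exact absurd x.2 (not_lt.2 h1)
  have hfib : ∀ s : range A, #(A ⁻¹' {s.1}) ≤ κ := by
    intro s
    by_contra hcon
    push Not at hcon
    obtain ⟨T, hT1, hT2⟩ := le_mk_iff_exists_subset.1 hcon.le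
    obtain ⟨a, ha⟩ := key T (fun t => t.1) Subtype.val_injective hT2
    obtain ⟨Z0, hZ0⟩ := s.2
    obtain ⟨x, hx1, hx2⟩ := U.nonempty_of_mem (Filter.inter_mem (hA Z0) (fine a))
    refine ha x hx2 fun t => ?_
    have h1 : A t.1 = s.1 := hT1 t.2
    rw [h1, ← hZ0]
    exact hx1
  refine ⟨range A, ?_, ?_, ?_⟩
  · rintro _ ⟨Z, rfl⟩
    exact hA Z
  · apply le_antisymm
    · refine mk_range_le.trans ?_
      rw [mk_set, hX]
    · by_contra hcon
      push Not at hcon
      have h1 : #(Set X) ≤ #(range A) * κ := by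
        have h3 : (Set.univ : Set (Set X)) ⊆ ⋃ s : range A, A ⁻¹' {s.1} := fun Z _ =>
          mem_iUnion.2 ⟨⟨A Z, Z, rfl⟩, rfl⟩
        calc #(Set X) = #(Set.univ : Set (Set X)) := mk_univ.symm
          _ ≤ #(⋃ s : range A, A ⁻¹' {s.1} : Set (Set X)) := mk_le_mk_of_subset h3
          _ ≤ Cardinal.sum fun s : range A => #(A ⁻¹' {s.1}) := mk_iUnion_le_sum_mk
          _ ≤ Cardinal.sum fun _ : range A => κ := sum_le_sum _ _ hfib
          _ = #(range A) * κ := by rw [sum_const']
      rw [mk_set, hX] at h1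
      have h3 : κ < (2 : Cardinal.{0}) ^ Order.succ κ :=
        (Order.lt_succ κ).trans (cantor _)
      have h4 : #(range A) * κ < (2 : Cardinal.{0}) ^ Order.succ κ :=
        mul_lt_of_lt (hκ0.trans h3.le) hcon h3
      exact absurd h1 (not_le.2 h4)
  · intro T hTS hT
    have hch : ∀ t : T, ∃ Z, A Z = t.1 := fun t => hTS t.2
    choose Z hZ using hch
    have hinj : Function.Injective Z := fun s t h => Subtype.ext (by rw [← hZ s, ← hZ t, h])
    obtain ⟨a, ha⟩ := key T Z hinj hT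
    have hemp : ⋂₀ T ∩ {x : {x : Set X // #x < κ} | a ∈ x.1} = ∅ := by
      rw [eq_empty_iff_forall_notMem]
      rintro x ⟨hx1, hx2⟩
      exact ha x hx2 fun t => by rw [hZ t]; exact hx1 t.1 t.2
    refine ⟨fun hU => ?_, a, hemp⟩
    obtain ⟨x, hx⟩ := U.nonempty_of_mem (Filter.inter_mem hU (fine a))
    rw [hemp] at hx
    exact hx

end Pool.Agent.Results.MP_a3089e_lc.GalvinFails
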